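import Pool.Agent.N783.PQ.Loc
import Pool.Agent.N833.PQ.Int
import Pool.Agent.N704.PJ.Loc1
import Pool.Agent.N787.PJ.Ext
import Pool.Agent.N427.PJ.E1

/-!
# LOC1: even valuations at the odd primes not dividing `D`

Project PQ (helper783). By helper346, a port to `ℤ` of helper704's files for the project PJ.
-/

set_option autoImplicit false
set_option linter.all false

open Polynomial IsDedekindDomain WithZero Matrix NumberField
open Pool.Agent.N874.PP (Ev Sq1 U0)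
open Pool.Agent.N783.PQ
open scoped Classical NNReal

namespace Pool.Agent.N346.PQ.Loc1

open Pool.Agent.N704.PP (vx ev_of)
open Pool.Agent.N704.PJ (adj_prop adj_ne WV wv_le wv_lt wv_eq wv_sq)
open Pool.Agent.N352.PJ (CV S_EXT S_E1 ac Mt)

section ints

variable {L : Type} [Field L] [NumberField L] {p : ℕ} {𝔓 : HeightOneSpectrum (𝓞 L)}

theorem val_int (𝔓 : HeightOneSpectrum (𝓞 L)) {x : L} (hx : IsIntegral ℤ x) :
    𝔓.valuation L x ≤ 1 := by
  obtain ⟨y, rfl⟩ := (IsIntegralClosure.isIntegral_iff (A := 𝓞 L)).1 hx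
  exact 𝔓.valuation_le_one y

theorem mem_iff (hp : p.Prime) (h : Ov p 𝔓) (c : ℤ) :
    (c : 𝓞 L) ∈ 𝔓.asIdeal ↔ (p : ℤ) ∣ c := by
  have hov' : (p : 𝓞 L) ∈ 𝔓.asIdeal := h
  constructor
  · intro hc
    by_contra hn
    obtain ⟨u, v, huv⟩ : IsCoprime (p : ℤ) c :=
      ((Nat.prime_iff_prime_int.1 hp).coprime_iff_not_dvd).mpr hn
    have : ((u * p + v * c : ℤ) : 𝓞 L) ∈ 𝔓.asIdeal := by
      push_cast
      exact Ideal.add_mem _ (Ideal.mul_mem_left _ _ hov') (Ideal.mul_mem_left _ _ hc)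
    rw [huv, Int.cast_one] at this
    exact 𝔓.isPrime.ne_top ((Ideal.eq_top_iff_one _).mpr this)
  · rintro ⟨d, rfl⟩
    push_cast
    exact Ideal.mul_mem_right _ _ hov'

theorem cast_eq (c : ℤ) : (c : L) = algebraMap (𝓞 L) L (c : 𝓞 L) := by
  rw [map_intCast]

theorem val_lt (hp : p.Prime) (h : Ov p 𝔓) (c : ℤ) :
    𝔓.valuation L (c : L) < 1 ↔ (p : ℤ) ∣ c := by
  rw [cast_eq, HeightOneSpectrum.valuation_lt_one_iff_mem, mem_iff hp h]

theorem val_le (𝔓 : HeightOneSpectrum (𝓞 L)) (c : ℤ) : 𝔓.valuation L (c : L) ≤ 1 := by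
  rw [cast_eq]
  exact 𝔓.valuation_le_one _

theorem val_eq (hp : p.Prime) (h : Ov p 𝔓) {c : ℤ} (hc : ¬ (p : ℤ) ∣ c) :
    𝔓.valuation L (c : L) = 1 :=
  le_antisymm (val_le 𝔓 c) (not_lt.1 fun h1 => hc ((val_lt hp h c).1 h1))

theorem inv_mod (hp : p.Prime) {a : ℤ} (ha : ¬ (p : ℤ) ∣ a) : ∃ u : ℤ, (p : ℤ) ∣ 1 - a * u := by
  obtain ⟨u, v, huv⟩ : IsCoprime (p : ℤ) a :=
    ((Nat.prime_iff_prime_int.1 hp).coprime_iff_not_dvd).mpr ha
  exact ⟨v, u, by linear_combination -huv⟩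

end ints

section one

variable {L : Type} [Field L] [NumberField L] {g : ℕ} {f : ℤ[X]} {θ : L}

theorem theta_le (h : IsGen g f θ) (𝔮 : HeightOneSpectrum (𝓞 L)) : 𝔮.valuation L θ ≤ 1 :=
  val_int 𝔮 (Pool.Agent.N833.PQ.theta_int h)

theorem aeval_int (h : IsGen g f θ) (p : ℤ[X]) : IsIntegral ℤ (aeval θ p) := by
  rw [aeval_eq_sum_range]
  exact IsIntegral.sum _ fun i _ => ((Pool.Agent.N833.PQ.theta_int h).pow _).smul _

/-- The determinant of the multiplication by `f'(θ)`. -/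
theorem det_der (h0 : S_INT) (h : IsGen g f θ) (hsq : Squarefree (dsc g f)) :
    ∃ A : Mt g ℤ, A.det = dsc g f ∧ ∀ i : Fin (2 * g + 1),
      aeval θ (derivative f) * θ ^ (i : ℕ) = ∑ j, (A i j : L) * θ ^ (j : ℕ) := by
  have hθ := Pool.Agent.N833.PQ.theta_int h
  have hint : ∀ i : Fin (2 * g + 1), IsIntegral ℤ (aeval θ (derivative f) * θ ^ (i : ℕ)) :=
    fun i => (aeval_int h _).mul (hθ.pow _)
  choose A hA using fun i => (h0 g L f θ h hsq _).1 (hint i)
  refine ⟨Matrix.of A, ?_, hA⟩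
  apply IsFractionRing.injective ℤ ℚ
  have h1 : Algebra.norm ℚ (aeval θ (derivative f)) = algebraMap ℤ ℚ (dsc g f) := by
    rw [Pool.Agent.N833.PQ.dsc_map h, ← Pool.Agent.N833.PQ.nrm h hsq.ne_zero _ _
      (Pool.Agent.N833.PQ.deg_der h), derivative_map, aeval_map_algebraMap]
  rw [← h1, Algebra.norm_eq_matrix_det h.basis, RingHom.map_det, ← Matrix.det_transpose]
  congr 1
  ext i j
  rw [Algebra.leftMulMatrix_eq_repr_mul, h.basis_apply, hA j]
  have e : ∑ l, (A j l : L) * θ ^ (l : ℕ) = ∑ l, ((A j l : ℤ) : ℚ) • h.basis l := by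
    refine Finset.sum_congr rfl fun l _ => ?_
    rw [h.basis_apply, Algebra.smul_def]
    simp
  rw [e, h.basis.repr_sum_self]
  rfl

/-- The primes over `p` which divide `f'(θ)` contain `θ - c`. -/
theorem deg_one (h0 : S_INT) (h : IsGen g f θ) (hsq : Squarefree (dsc g f)) {p : ℕ}
    (hp : p.Prime) : ∃ c : ℤ, ∀ 𝔮 : HeightOneSpectrum (𝓞 L), Ov p 𝔮 →
      𝔮.valuation L (aeval θ (derivative f)) < 1 → 𝔮.valuation L (θ - (c : L)) < 1 := by
  rcases Nat.eq_zero_or_pos g with hg | hg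
  · refine ⟨0, fun 𝔮 _ h1 => ?_⟩
    exfalso
    have h2 : f.natDegree = 1 := by rw [h.deg, hg]
    rw [h.mon.eq_X_add_C h2, derivative_add, derivative_X, derivative_C, add_zero, map_one,
      map_one] at h1
    exact lt_irrefl _ h1
  obtain ⟨A, hA, hAe⟩ := det_der h0 h hsq
  have hpz : Prime (p : ℤ) := Nat.prime_iff_prime_int.1 hp
  have hnd : ¬ (p : ℤ) ^ 2 ∣ A.det := by
    rw [hA, pow_two]
    intro h1
    exact hpz.not_unit (hsq _ h1)
  obtain ⟨j, i, hji⟩ := adj_ne hpz A hnd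
  obtain ⟨θ', hθ'⟩ := (IsIntegralClosure.isIntegral_iff (A := 𝓞 L)).1
    (Pool.Agent.N833.PQ.theta_int h)
  set d' : 𝓞 L := aeval θ' (derivative f) with hd'
  have hd : algebraMap (𝓞 L) L d' = aeval θ (derivative f) := by
    rw [hd', ← hθ', aeval_algebraMap_apply]
  have hO : ∀ i : Fin (2 * g + 1), d' * θ' ^ (i : ℕ) =
        ∑ j, (A i j : 𝓞 L) * θ' ^ (j : ℕ) := by
    intro i
    apply IsFractionRing.injective (𝓞 L) L
    rw [map_mul, hd, map_pow, hθ', hAe, map_sum]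
    refine Finset.sum_congr rfl fun j _ => ?_
    rw [map_mul, map_pow, hθ', map_intCast]
  have key : ∀ 𝔮 : HeightOneSpectrum (𝓞 L), Ov p 𝔮 →
      𝔮.valuation L (aeval θ (derivative f)) < 1 →
      ∀ l : Fin (2 * g + 1), ((A.adjugate l i : ℤ) : 𝓞 L) -
        θ' ^ (l : ℕ) * ((A.adjugate 0 i : ℤ) : 𝓞 L) ∈ 𝔮.asIdeal := by
    intro 𝔮 hq hlt l
    rw [← hd, HeightOneSpectrum.valuation_lt_one_iff_mem] at hlt
    letI := Ideal.Quotient.field 𝔮.asIdeal
    set φ := Ideal.Quotient.mk 𝔮.asIdeal with hφ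
    have h1 : (A.map (φ.comp (Int.castRingHom (𝓞 L)))) *ᵥ
        (fun l : Fin (2 * g + 1) => φ θ' ^ (l : ℕ)) = 0 := by
      funext a
      rw [Matrix.mulVec, dotProduct]
      have h2 := congrArg φ (hO a)
      rw [map_mul, Ideal.Quotient.eq_zero_iff_mem.2 hlt, zero_mul, map_sum] at h2
      rw [Pi.zero_apply, h2]
      refine Finset.sum_congr rfl fun b _ => ?_
      rw [map_mul, map_pow]
      rfl
    have h3 := adj_prop _ _ (0 : Fin (2 * g + 1)) h1 (by simp) l i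
    have h4 : (A.map (φ.comp (Int.castRingHom (𝓞 L)))).adjugate =
        A.adjugate.map (φ.comp (Int.castRingHom (𝓞 L))) := by
      have := RingHom.map_adjugate (φ.comp (Int.castRingHom (𝓞 L))) A
      rw [RingHom.mapMatrix_apply, RingHom.mapMatrix_apply] at this
      exact this.symm
    rw [h4, Matrix.map_apply, Matrix.map_apply, RingHom.comp_apply, RingHom.comp_apply,
      eq_intCast, eq_intCast] at h3
    rw [← Ideal.Quotient.eq_zero_iff_mem, map_sub, map_mul, map_pow, ← hφ, h3, sub_self]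
  by_cases hu : (p : ℤ) ∣ A.adjugate 0 i
  · refine ⟨0, fun 𝔮 hq hlt => ?_⟩
    exfalso
    apply hji
    rw [← mem_iff hp hq]
    have h1 := key 𝔮 hq hlt j
    have h2 := 𝔮.asIdeal.mul_mem_left (θ' ^ (j : ℕ)) ((mem_iff hp hq _).2 hu)
    have h3 := 𝔮.asIdeal.add_mem h1 h2
    rwa [sub_add_cancel] at h3
  · obtain ⟨u', hu'⟩ := inv_mod hp hu
    have h1l : 1 < 2 * g + 1 := by omega
    refine ⟨A.adjugate ⟨1, h1l⟩ i * u', fun 𝔮 hq hlt => ?_⟩
    have h1 := key 𝔮 hq hlt ⟨1, h1l⟩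
    have h2 : 𝔮.valuation L (algebraMap (𝓞 L) L (((A.adjugate ⟨1, h1l⟩ i : ℤ) : 𝓞 L) -
        θ' ^ 1 * ((A.adjugate 0 i : ℤ) : 𝓞 L))) < 1 :=
      (HeightOneSpectrum.valuation_lt_one_iff_mem (K := L) 𝔮 _).2 h1
    rw [pow_one, map_sub, map_mul, hθ', map_intCast, map_intCast] at h2
    have e : θ - ((A.adjugate ⟨1, h1l⟩ i * u' : ℤ) : L) =
        θ * ((1 - A.adjugate 0 i * u' : ℤ) : L) -
        (u' : L) * (((A.adjugate ⟨1, h1l⟩ i : ℤ) : L) - θ * ((A.adjugate 0 i : ℤ) : L)) := by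
      push_cast; ring
    rw [e]
    refine lt_of_le_of_lt (Valuation.map_sub _ _ _) (max_lt ?_ ?_)
    · rw [map_mul]
      exact lt_of_le_of_lt (mul_le_mul' (theta_le h 𝔮) le_rfl)
        (by rw [one_mul]; exact (val_lt hp hq _).2 hu')
    · rw [map_mul]
      exact lt_of_le_of_lt (mul_le_mul' (val_le 𝔮 _) le_rfl) (by rw [one_mul]; exact h2)

/-- There is at most one prime over `p` which contains `θ - c`. -/
theorem uniq (h0 : S_INT) (h : IsGen g f θ) (hsq : Squarefree (dsc g f)) {p : ℕ}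
    (hp : p.Prime) {𝔓 𝔓' : HeightOneSpectrum (𝓞 L)} (h1 : Ov p 𝔓) (h1' : Ov p 𝔓')
    {c : ℤ} (hc : 𝔓.valuation L (θ - (c : L)) < 1)
    (hc' : 𝔓'.valuation L (θ - (c : L)) < 1) : 𝔓 = 𝔓' := by
  have hle : 𝔓.asIdeal ≤ 𝔓'.asIdeal := by
    intro z hz
    obtain ⟨u, hu⟩ := (h0 g L f θ h hsq (algebraMap (𝓞 L) L z)).1
      ((IsIntegralClosure.isIntegral_iff (A := 𝓞 L)).2 ⟨z, rfl⟩)
    set r : ℤ[X] := ∑ i : Fin (2 * g + 1), C (u i) * X ^ (i : ℕ) with hr
    have e1 : algebraMap (𝓞 L) L z = aeval θ r := by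
      rw [hu, hr, map_sum]
      refine Finset.sum_congr rfl fun i _ => ?_
      rw [map_mul, aeval_C, aeval_X_pow]
      simp
    obtain ⟨q, hq⟩ : (X - C c) ∣ r - C (r.eval c) := X_sub_C_dvd_sub_C_eval
    have e2 : algebraMap (𝓞 L) L z = ((r.eval c : ℤ) : L) +
        (θ - (c : L)) * aeval θ q := by
      have := congrArg (aeval θ) hq
      rw [map_sub, aeval_C, map_mul, map_sub, aeval_X, aeval_C, algebraMap_int_eq,
        eq_intCast, eq_intCast] at this
      rw [e1]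
      linear_combination this
    have small : ∀ 𝔮 : HeightOneSpectrum (𝓞 L), 𝔮.valuation L (θ - (c : L)) < 1 →
        𝔮.valuation L ((θ - (c : L)) * aeval θ q) < 1 := by
      intro 𝔮 hq'
      have h1 : 𝔮.valuation L (aeval θ q) ≤ 1 := val_int 𝔮 (aeval_int h q)
      rw [map_mul]
      exact mul_lt_one_of_lt_of_le hq' h1
    have h3 : 𝔓.valuation L (algebraMap (𝓞 L) L z) < 1 :=
      (HeightOneSpectrum.valuation_lt_one_iff_mem 𝔓 z).2 hz
    have h2 : (p : ℤ) ∣ r.eval c := by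
      rw [← val_lt (L := L) hp h1]
      have e3 : ((r.eval c : ℤ) : L) = algebraMap (𝓞 L) L z -
        (θ - (c : L)) * aeval θ q := by rw [e2]; ring
      rw [e3]
      exact lt_of_le_of_lt (Valuation.map_sub _ _ _) (max_lt h3 (small 𝔓 hc))
    have h3 : 𝔓'.valuation L (algebraMap (𝓞 L) L z) < 1 := by
      rw [e2]
      exact lt_of_le_of_lt (Valuation.map_add _ _ _)
        (max_lt ((val_lt (L := L) hp h1' _).2 h2) (small 𝔓' hc'))
    exact (HeightOneSpectrum.valuation_lt_one_iff_mem 𝔓' z).1 h3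
  exact HeightOneSpectrum.ext (𝔓.isMaximal.eq_of_le 𝔓'.isPrime.ne_top hle)

end one

section loc

variable {L : Type} [Field L] [NumberField L] {g : ℕ} {f : ℤ[X]} {θ : L} {p : ℕ}
  {𝔓 : HeightOneSpectrum (𝓞 L)}

theorem eval_emb (𝔓 : HeightOneSpectrum (𝓞 L)) (q : ℤ[X]) (x : L) :
    (q.map (Int.castRingHom (𝔓.adicCompletion L))).eval (algebraMap L (𝔓.adicCompletion L) x) =
      algebraMap L (𝔓.adicCompletion L) (aeval x q) := by
  rw [eval_map, aeval_def, hom_eval₂]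
  congr 1
  exact RingHom.ext_int _ _

/-- The local condition, evaluated. -/
theorem locIm_eval [Fact p.Prime] (j : ℚ_[p] →+* 𝔓.adicCompletion L) {F : ℤ[X]} {Θ : L}
    (hΘ : aeval Θ F = 0) {h : ℚ[X]} (hl : LocIm ℚ_[p] (ov ℚ_[p] F) (oq ℚ_[p] h)) :
    ∃ (l : List (ℚ_[p][X] × ℚ_[p][X])) (s : 𝔓.adicCompletion L),
      (∀ q ∈ l, q.1.Monic ∧
        IsCoprime (q.1.map j) (F.map (Int.castRingHom (𝔓.adicCompletion L))) ∧
        q.1.map j ∣ (q.2.map j) ^ 2 - F.map (Int.castRingHom (𝔓.adicCompletion L))) ∧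
      algebraMap L (𝔓.adicCompletion L) (aeval Θ h) * (l.map fun q =>
        (-1) ^ q.1.natDegree * (q.1.map j).eval (algebraMap L (𝔓.adicCompletion L) Θ)).prod =
          s ^ 2 := by
  obtain ⟨l, s, h1, h2⟩ := hl
  have hF : (ov ℚ_[p] F).map j = F.map (Int.castRingHom (𝔓.adicCompletion L)) := by
    rw [ov, Polynomial.map_map]
    congr 1
    exact RingHom.ext_int _ _
  refine ⟨l, eval₂ j (algebraMap L (𝔓.adicCompletion L) Θ) s, fun q hq => ?_, ?_⟩
  · obtain ⟨h3, h4, h5⟩ := h1 q hq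
    refine ⟨h3, ?_, ?_⟩
    · have := h4.map (mapRingHom j)
      rw [coe_mapRingHom, hF] at this
      exact this
    · have := _root_.map_dvd (mapRingHom j) h5
      rw [map_sub, map_pow, coe_mapRingHom, hF] at this
      exact this
  · obtain ⟨q, hq⟩ := h2
    have h3 := congrArg (eval₂ j (algebraMap L (𝔓.adicCompletion L) Θ)) hq
    have h4 : eval₂ j (algebraMap L (𝔓.adicCompletion L) Θ) (ov ℚ_[p] F) = 0 := by
      rw [← eval_map, hF, eval_emb, hΘ, map_zero]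
    have h5 : eval₂ j (algebraMap L (𝔓.adicCompletion L) Θ) (oq ℚ_[p] h) =
        algebraMap L (𝔓.adicCompletion L) (aeval Θ h) := by
      rw [oq, eval₂_map, aeval_def, hom_eval₂]
      congr 1
      exact RingHom.ext_rat _ _
    rw [eval₂_sub, eval₂_mul, eval₂_pow, eval₂_mul, h4, zero_mul, sub_eq_zero, h5] at h3
    rw [← h3, ← coe_eval₂RingHom, map_list_prod, List.map_map]
    congr 3
    funext q
    simp only [Function.comp_apply, map_mul, map_pow, map_neg, map_one, coe_eval₂RingHom, eval_map]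
    rw [eval₂_mul, eval₂_pow, eval₂_neg, eval₂_one]

theorem der_scale (f : ℤ[X]) (D : ℤ) (θ : L) :
    aeval ((D : L) * θ) (derivative (f.scaleRoots D)) * (D : L) =
      (D : L) ^ f.natDegree * aeval θ (derivative f) := by
  have h1 : (f.scaleRoots D).comp (C D * X) = C (D ^ f.natDegree) * f := by
    ext i
    rw [comp_C_mul_X_coeff, coeff_scaleRoots, coeff_C_mul, mul_assoc, ← pow_add]
    by_cases hi : i ≤ f.natDegree
    · rw [Nat.sub_add_cancel hi, mul_comm]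
    · rw [coeff_eq_zero_of_natDegree_lt (not_le.1 hi), zero_mul, mul_zero]
  have h2 := congrArg derivative h1
  rw [derivative_comp, derivative_C_mul, derivative_C_mul, derivative_X, mul_one] at h2
  have h3 := congrArg (aeval θ) h2
  rw [map_mul, map_mul, aeval_C, aeval_C, aeval_comp, map_mul, aeval_C, aeval_X,
    map_pow, algebraMap_int_eq, eq_intCast] at h3
  rw [← h3, mul_comm]

theorem scale_root {f : ℤ[X]} {θ : L} (D : ℤ) (h : aeval θ f = 0) :
    aeval ((D : L) * θ) (f.scaleRoots D) = 0 := by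
  have := scaleRoots_aeval_eq_zero (r := D) h
  rwa [algebraMap_int_eq, eq_intCast] at this

/-- Even valuations at primes with good reduction. -/
theorem ev_good [Fact p.Prime] (hE1 : S_E1) (hE : S_EXT) (hC : S_CPL) (h2 : p ≠ 2)
    (hG : IsGen g f θ) {D : ℤ} {h : ℚ[X]} (hD : ¬ (p : ℤ) ∣ D)
    (hne : aeval ((D : L) * θ) h ≠ 0)
    (hl : LocIm ℚ_[p] (ov ℚ_[p] (f.scaleRoots D)) (oq ℚ_[p] h)) (hO : Ov p 𝔓)
    (hd : 𝔓.valuation L (aeval θ (derivative f)) = 1) :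
    Ev 𝔓 (aeval ((D : L) * θ) h) := by
  have hp : p.Prime := Fact.out
  obtain ⟨j, -, hj2, hj3⟩ := hC L p 𝔓 hO
  have hv2 : 𝔓.valuation L 2 = 1 := by
    have h3 : ¬ (p : ℤ) ∣ 2 := by
      intro h4
      have h5 : p ∣ 2 := by exact_mod_cast h4
      exact h2 ((Nat.prime_dvd_prime_iff_eq hp Nat.prime_two).1 h5)
    have := val_eq (L := L) hp hO h3
    simpa using this
  obtain ⟨w, c, hc, hw⟩ := hE (𝓞 L) L 𝔓 hv2
  change WV w c at hw
  set Θ : L := (D : L) * θ with hΘ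
  have hΘ0 : aeval Θ (f.scaleRoots D) = 0 := scale_root D hG.root
  obtain ⟨l, s, hl1, hl2⟩ := locIm_eval j hΘ0 hl
  set α := algebraMap L (𝔓.adicCompletion L) (aeval Θ h) with hα
  have hα0 : α ≠ 0 := by rw [hα, Ne, map_eq_zero]; exact hne
  set Θ' := algebraMap L (𝔓.adicCompletion L) Θ with hΘ'
  have hvD : 𝔓.valuation L (D : L) = 1 := val_eq hp hO hD
  have hFm : ((f.scaleRoots D).map (Int.castRingHom (𝔓.adicCompletion L))).Monic :=
    ((monic_scaleRoots_iff D).2 hG.mon).map _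
  have hFd : ((f.scaleRoots D).map (Int.castRingHom (𝔓.adicCompletion L))).natDegree =
      2 * g + 1 := by
    rw [Monic.natDegree_map ((monic_scaleRoots_iff D).2 hG.mon), natDegree_scaleRoots, hG.deg]
  have hder : w (ac ((derivative ((f.scaleRoots D).map
      (Int.castRingHom (𝔓.adicCompletion L)))).eval Θ')) = 1 := by
    rw [wv_eq hc hw, derivative_map, hΘ', eval_emb, vx]
    have h3 := congrArg (𝔓.valuation L) (der_scale f D θ)
    rw [map_mul, map_mul, map_pow, hvD, one_pow, hd, mul_one, mul_one] at h3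
    exact h3
  have key : ∀ q ∈ l, ∃ y : 𝔓.adicCompletion L, y ≠ 0 ∧
      w (ac ((q.1.map j).eval Θ')) = w (ac y) ^ 2 := by
    intro q hq
    obtain ⟨h3, h4, h5⟩ := hl1 q hq
    refine hE1 _ w c hc ((f.scaleRoots D).map (Int.castRingHom (𝔓.adicCompletion L)))
      (q.1.map j) (q.2.map j) Θ' hFm ?_ ?_ ?_ ?_ hder (h3.map _) h4 h5
    · rw [hFd]; exact ⟨g, rfl⟩
    · intro i
      rw [wv_le hc hw, coeff_map]
      have e : Int.castRingHom (𝔓.adicCompletion L) ((f.scaleRoots D).coeff i) =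
          algebraMap L (𝔓.adicCompletion L) (((f.scaleRoots D).coeff i : ℤ) : L) := by
        rw [eq_intCast, map_intCast]
      rw [e, vx]
      exact val_le 𝔓 _
    · rw [wv_le hc hw, hΘ', vx, hΘ, map_mul, hvD, one_mul]
      exact theta_le hG 𝔓
    · rw [hΘ', eval_emb, hΘ0, map_zero]
  have key2 : ∀ l' : List (ℚ_[p][X] × ℚ_[p][X]), (∀ q ∈ l',
      ∃ y : 𝔓.adicCompletion L, y ≠ 0 ∧ w (ac ((q.1.map j).eval Θ')) = w (ac y) ^ 2) →
      ∃ y : 𝔓.adicCompletion L, y ≠ 0 ∧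
        w (ac (l'.map fun q => (-1) ^ q.1.natDegree * (q.1.map j).eval Θ').prod) =
          w (ac y) ^ 2 := by
    intro l'
    induction l' with
    | nil =>
      intro _
      exact ⟨1, one_ne_zero, by simp⟩
    | cons q l' ih =>
      intro hq
      obtain ⟨y, hy0, hy⟩ := ih fun q hq' => hq q (List.mem_cons_of_mem _ hq')
      obtain ⟨z, hz0, hz⟩ := hq q List.mem_cons_self
      refine ⟨z * y, mul_ne_zero hz0 hy0, ?_⟩
      rw [List.map_cons, List.prod_cons]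
      simp only [ac] at hy hz ⊢
      rw [map_mul, map_mul, hy, map_mul, map_mul, hz, map_mul, map_mul, map_pow, map_pow, map_neg,
        map_one, Valuation.map_neg, map_one, one_pow, one_mul, mul_pow]
  obtain ⟨y, hy0, hy⟩ := key2 l key
  have h3 := congrArg (fun x => w (ac x)) hl2
  have hprod0 : (l.map fun q => (-1) ^ q.1.natDegree * (q.1.map j).eval Θ').prod ≠ 0 := by
    intro h0
    rw [h0] at hy
    simp only [ac, map_zero] at hy
    have h4 : w (algebraMap _ _ y) ≠ 0 := by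
      rw [Valuation.ne_zero_iff, Ne, map_eq_zero]
      exact hy0
    exact pow_ne_zero 2 h4 hy.symm
  have hs0 : s ≠ 0 := by
    intro h0
    rw [h0, zero_pow two_ne_zero] at hl2
    rcases mul_eq_zero.1 hl2 with h5 | h5
    · exact hα0 h5
    · exact hprod0 h5
  refine ev_of 𝔓 _ (s / y) ?_
  refine wv_sq (x := α) hc hw hα0 (div_ne_zero hs0 hy0) ?_
  have h4 : w (ac (α * (l.map fun q => (-1) ^ q.1.natDegree * (q.1.map j).eval Θ').prod)) =
      w (ac (s ^ 2)) := h3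
  have hwy : w (ac y) ≠ 0 := by
    rw [Valuation.ne_zero_iff, ac, Ne, map_eq_zero]
    exact hy0
  simp only [ac] at h4 hy hwy ⊢
  rw [map_mul, map_mul, hy, map_pow, map_pow] at h4
  rw [map_div₀, map_div₀, div_pow, ← h4, mul_div_assoc, div_self (pow_ne_zero 2 hwy), mul_one]

end loc

theorem loc1_of (hE1 : S_E1) (hE : S_EXT) (h0 : S_INT) (h1 : S_PAR) (h4 : S_CPL) : S_LOC1 := by
  intro g L _ _ f θ hg hG hsq p _ hp2 D h hD hne hN hl 𝔓 h𝔓
  have hp : p.Prime := Fact.out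
  have hcast : ((D : ℤ) : L) = (D : L) := by simp
  rw [← hcast] at hne hN ⊢
  have hD' : ¬ (p : ℤ) ∣ (D : ℤ) := by exact_mod_cast hD
  obtain ⟨c, hc⟩ := deg_one (L := L) h0 hG hsq hp
  have hle : ∀ 𝔮 : HeightOneSpectrum (𝓞 L), 𝔮.valuation L (aeval θ (derivative f)) ≤ 1 :=
    fun 𝔮 => val_int 𝔮 (aeval_int hG _)
  by_cases hd : 𝔓.valuation L (aeval θ (derivative f)) = 1
  · exact ev_good hE1 hE h4 hp2 hG hD' hne hl h𝔓 hd
  · have hd' := lt_of_le_of_ne (hle 𝔓) hd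
    have hcc := hc 𝔓 h𝔓 hd'
    refine h1 g L f θ hG hsq p hp 𝔓 c h𝔓 hcc _ hne hN ?_
    intro 𝔮 hq hne'
    refine ev_good hE1 hE h4 hp2 hG hD' hne hl hq ?_
    by_contra h5
    exact hne' (uniq h0 hG hsq hp hq h𝔓 (hc 𝔮 hq (lt_of_le_of_ne (hle 𝔮) h5)) hcc)

/-- **LOC1**. -/
theorem loc1 (h1 : S_INT) (h2 : S_PAR) (h3 : S_CPL) : S_LOC1 :=
  loc1_of Pool.Agent.N427.PJ.e1 Pool.Agent.N787.PJ.ext h1 h2 h3

end Pool.Agent.N346.PQ.Loc1
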